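import Pool.Agent.Helper57.SS.Goals

/-!
# Project SS, packet FZ: the decreasing filtration
-/

set_option autoImplicit false

namespace Pool.Agent.Helper13.SS

open MeasureTheory Filter Topology
open scoped ComplexConjugate
open Pool.Agent.Helper57.SS

theorem Fz_add (hZP : G_ZP) {α : Type} (A : MeasurableSpace α) [m0 : MeasurableSpace α] (T : α ≃ᵐ α) (n m : ℤ) :
    Fz A T (n + m) = MeasurableSpace.comap (zp T m) (Fz A T n) := by
  unfold Fz
  rw [MeasurableSpace.comap_comp]
  congr 1
  funext x
  exact (hZP α T).2.2.2.1 n m x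

theorem meas_comp (hZP : G_ZP) {α : Type} (A : MeasurableSpace α) [m0 : MeasurableSpace α] (T : α ≃ᵐ α) (n m : ℤ)
    (u : α → ℝ) (hu : Measurable[Fz A T n] u) : Measurable[Fz A T (n + m)] (fun x => u (zp T m x)) := by
  rw [Fz_add hZP]
  rw [measurable_iff_comap_le] at hu ⊢
  have e : (fun x => u (zp T m x)) = u ∘ zp T m := rfl
  rw [e, ← MeasurableSpace.comap_comp]
  exact MeasurableSpace.comap_mono hu

theorem gFZ : G_FZ := by
  intro hZP α A m0 T hE
  have h1 : ∀ m n : ℤ, m ≤ n → Fz A T n ≤ Fz A T m := by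
    have hanti : Antitone (Fz A T) := by
      refine antitone_int_of_succ_le fun m => ?_
      rw [add_comm, Fz_add hZP]
      have e1 : zp T 1 = ⇑T := by
        funext x
        have := (hZP α T).2.1 1 x
        rw [Nat.cast_one] at this
        rw [this]
        rfl
      have e2 : Fz A T 1 ≤ A := by
        unfold Fz
        rw [e1]
        exact hE.dec
      exact MeasurableSpace.comap_mono e2
    exact fun m n h => hanti h
  have h2 : ∀ m, Fz A T m ≤ m0 := by
    intro m
    unfold Fz
    exact (MeasurableSpace.comap_mono hE.le).trans ((hZP α T).2.2.2.2.1 m).comap_le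
  have h6 : ∀ m, Tl A T ≤ Fz A T m := by
    intro m
    refine le_trans ?_ (h1 m (m.toNat : ℤ) (Int.self_le_toNat m))
    exact iInf_le (fun n : ℕ => Fz A T n) m.toNat
  refine ⟨h1, h2, (h6 0).trans (h2 0), fun n m u hu => meas_comp hZP A T n m u hu, fun m u hu => ?_, h6⟩
  rw [measurable_iff_comap_le]
  refine le_iInf fun n => ?_
  rw [← measurable_iff_comap_le]
  have hu' : Measurable[Fz A T ((n : ℤ) - m)] u := by
    rw [measurable_iff_comap_le] at hu ⊢
    exact hu.trans (h6 _)
  have := meas_comp hZP A T ((n : ℤ) - m) m u hu'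
  rwa [sub_add_cancel] at this

end Pool.Agent.Helper13.SS
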