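import Pool.Agent.Helper57.SS.Goals

/-!
# Project SS, packet LF3: from LF2 by exchanging the two maps
-/

set_option autoImplicit false

namespace Pool.Agent.Helper13.SS

open MeasureTheory Filter Topology
open scoped ComplexConjugate
open Pool.Agent.Helper57.SS

theorem PhN_swap {α : Type} [MeasurableSpace α] (T S R : α ≃ᵐ α) (μ : Measure α) (a b : ℕ → ℕ) (f g h : α → ℝ)
    (N : ℕ) (p : ℤ × ℤ) : PhN S T R μ b a g f h N p = PhN T S R μ a b f g h N (p.2, p.1) := by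
  unfold PhN
  congr 1
  refine Finset.sum_congr rfl fun k _ => ?_
  congr 1
  funext x
  ring

theorem limF_swap (hWSY : G_WSY) {α : Type} [MeasurableSpace α] {μ : Measure α} {T S R : α ≃ᵐ α} {a b : ℕ → ℕ}
    {f g : α → ℝ} {U : Ultrafilter ℕ} {Nj : ℕ → ℕ} {h : ℕ → α → ℝ} {φ : ℤ × ℤ → ℝ} {r : ℤ → ℝ}
    (hL : LimF μ T S R a b f g U Nj h φ r) : LimF μ S T R b a g f U Nj h (fun p => φ (p.2, p.1)) r where
  hW := hWSY a b hL.hW
  hs := ⟨hL.hs.eS, hL.hs.eT, hL.hs.mR, fun x => (hL.hs.cTS x).symm, hL.hs.cRS, hL.hs.cRT⟩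
  hf := hL.hg
  hg := hL.hf
  hN := hL.hN
  hh := hL.hh
  hφ := by
    intro p
    have e : (fun j => PhN S T R μ b a g f (h j) (Nj j) p) = fun j => PhN T S R μ a b f g (h j) (Nj j) (p.2, p.1) :=
      funext fun j => PhN_swap T S R μ a b f g (h j) (Nj j) p
    rw [e]
    exact hL.hφ (p.2, p.1)
  hr := hL.hr

theorem gLF3 (hLF2 : G_LF2) : G_LF3 := by
  intro hE1 hEL hHZ hZP hVN hRPD hWSY α _ μ _ T S R a b f g U Nj h φ r hL c
  have h2 := hLF2 hE1 hEL hHZ hZP hVN hRPD α μ S T R b a g f U Nj h (fun p => φ (p.2, p.1)) r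
    (limF_swap hWSY hL) (c.mapDomain Prod.swap)
  have hinj : Function.Injective (Prod.swap : ℤ × ℤ → ℤ × ℤ) := Prod.swap_injective
  rw [Finsupp.sum_mapDomain_index_inj hinj, Finsupp.sum_mapDomain_index_inj hinj] at h2
  simp only [Finsupp.sum_mapDomain_index_inj hinj, Prod.fst_swap, Prod.snd_swap] at h2
  exact h2

end Pool.Agent.Helper13.SS
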